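import Pool.Agent.Helper37.TQ.NoeQ
import Pool.Agent.Helper10.TQ.Swap2

/-!
# Project TQ: NOE for the first block
-/

universe u v

namespace Pool.Agent.TQ

open MvPolynomial Pool.Agent.BT Pool.Agent.BE

/-- NOE for the first block. -/
theorem noe1Q {K : Type u} [Field K] {N t : ℕ} (ht : t ≤ N) {ds : Fin t → ℕ} {s₀ : Fin t}
    (hs₀ : ds s₀ = 2) {U : Type} [Fintype U] {e : U → ℕ} {h : ∀ u, MonV (N + 2) (e u) → K} {c : ℕ}
    (hc : 1 ≤ c) (hcert : CertV ht h c) :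
    ∃ c', Noe (relS (fun s q => (g0Q ht ds s₀ s q : K)) h) c' := by
  classical
  refine noe_of_cert_gen ht hc hcert fun s => ?_
  have hnv : (Fin.natAdd 2 (Fin.castLE ht s) |>.cast (by omega) : Fin (N + 2)) = uix ht s :=
    Fin.ext rfl
  rw [hnv, pol_g0Q hs₀ s]
  unfold spQ
  by_cases hs : s = s₀
  · subst hs
    rw [if_pos rfl]
    refine ⟨C 2 * X (uix ht s), X 0, 0, ?_, ?_, DL.zero _ _, ?_⟩
    · exact ((DL.C _).mul (DL.X _)).mono (by omega)
    · exact (DL.X _).mono (by omega)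
    · rw [hs₀]
      have h2 : (C 2 : MvPolynomial (Fin (N + 2)) K) = 2 := map_ofNat _ 2
      rw [h2]
      ring
  · rw [if_neg hs]
    exact ⟨0, 0, 0, DL.zero _ _, DL.zero _ _, DL.zero _ _, by ring⟩

end Pool.Agent.TQ
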