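import Pool.Agent.Helper77.TQ.Mono

/-!
# Project TQ: monotonicity of the certificates, padding of polynomials in `x`
-/

universe u

namespace Pool.Agent.TQ

open MvPolynomial Pool.Agent.BT

/-- monotonicity of `Cop` -/
theorem Cop.mono {K : Type u} [Field K] {N n d : ℕ} {U : Type} [Fintype U] {e : U → ℕ}
    {G G' : MonV (N + 2) n → K} {f : MonV (N + 2) d → K} {rel : ∀ u, MonV (N + 2) (e u) → K}
    {M M' : ℕ} (hnM : n ≤ M) (hM : M ≤ M') (h : Cop G G' f rel M) : Cop G G' f rel M' :=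
  Pool.Agent.BT.Cop.mono h hnM hM

/-- monotonicity of `FinX` -/
theorem FinX.mono {K : Type u} [Field K] {N d : ℕ} {U : Type} [Fintype U] {e : U → ℕ}
    {f : MonV (N + 2) d → K} {rel : ∀ u, MonV (N + 2) (e u) → K}
    {M M' : ℕ} (h1M : 1 ≤ M) (hM : M ≤ M') (h : FinX f rel M) : FinX f rel M' :=
  Pool.Agent.BT.FinX.mono h h1M hM

/-- padding of polynomials in `x` -/
theorem exists_padX {R : Type u} [CommRing R] (N : ℕ) {M M' : ℕ} (hM : M ≤ M')
    (c : Fin (M + 1) → R) :
    ∃ c' : Fin (M' + 1) → R, polX (N := N) c' = polX c ∧ (c ≠ 0 → c' ≠ 0) := by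
  classical
  refine ⟨fun i => if h : (i : ℕ) < M + 1 then c ⟨i, h⟩ else 0, ?_, ?_⟩
  · unfold polX
    have h1 : ∀ (L : ℕ), M ≤ L → ∑ i : Fin (L + 1),
        C (if h : (i : ℕ) < M + 1 then c ⟨i, h⟩ else 0) *
          (X 0 : MvPolynomial (Fin (N + 2)) R) ^ (i : ℕ) =
        ∑ i : Fin (M + 1), C (c i) * X 0 ^ (i : ℕ) := by
      intro L hL
      induction L, hL using Nat.le_induction with
      | base =>
        refine Finset.sum_congr rfl fun i _ => ?_
        rw [dif_pos i.2]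
      | succ k hk ih =>
        rw [Fin.sum_univ_castSucc, Fin.val_last, dif_neg (by omega), map_zero, zero_mul, add_zero]
        exact ih
    exact h1 M' hM
  · intro hc
    obtain ⟨j, hj⟩ := Function.ne_iff.1 hc
    refine Function.ne_iff.2 ⟨⟨j, by omega⟩, ?_⟩
    change (if h : (j : ℕ) < M + 1 then c ⟨j, h⟩ else 0) ≠ 0
    rw [dif_pos j.2]
    exact hj

end Pool.Agent.TQ
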